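import Pool.Agent.W21.RV.Defs

set_option autoImplicit false

namespace Pool.Agent.W482.RV

open Pool.Agent.W21.RV

theorem NU_int (a b L v : ℝ) (ha : 0 < a) (hab : a ≤ b) (hb : b < L) (hv : 0 < v) :
    ∫ x in a..b, (1 - x / v) / (x * (L - x)) =
      (1 / L) * (Real.log (b / a)) - (1 / v - 1 / L) * (Real.log ((L - a) / (L - b))) := by
  have hL : 0 < L := lt_of_lt_of_le ha hab |>.trans hb
  have h1 : ∀ x ∈ Set.uIcc a b, HasDerivAt (fun x => (1 / L) * Real.log x -
      (1 / L - 1 / v) * Real.log (L - x)) ((1 - x / v) / (x * (L - x))) x := by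
    intro x hx
    rw [Set.uIcc_of_le hab] at hx
    have hx0 : 0 < x := lt_of_lt_of_le ha hx.1
    have hxL : 0 < L - x := by linarith [hx.2]
    have e1 : HasDerivAt (fun x => Real.log x) (x⁻¹) x := Real.hasDerivAt_log hx0.ne'
    have e2 : HasDerivAt (fun x => L - x) (-1) x := by
      simpa using (hasDerivAt_id x).const_sub L
    have e3 : HasDerivAt (fun x => Real.log (L - x)) (-1 / (L - x)) x := e2.log hxL.ne'
    have e4 := (e1.const_mul (1 / L)).sub (e3.const_mul (1 / L - 1 / v))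
    refine e4.congr_deriv ?_
    field_simp
    ring
  rw [intervalIntegral.integral_eq_sub_of_hasDerivAt h1]
  · have hb0 : 0 < b := lt_of_lt_of_le ha hab
    have hLa : 0 < L - a := by linarith
    have hLb : 0 < L - b := by linarith
    rw [Real.log_div hb0.ne' ha.ne', Real.log_div hLa.ne' hLb.ne']
    ring
  · apply ContinuousOn.intervalIntegrable
    rw [Set.uIcc_of_le hab]
    apply ContinuousOn.div
    · fun_prop
    · fun_prop
    · intro x hx
      have hx0 : 0 < x := lt_of_lt_of_le ha hx.1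
      have hxL : 0 < L - x := by linarith [hx.2]
      positivity

theorem log_lt_of_pow (x : ℝ) (hx : 0 < x) (m n : ℕ) (hn : 0 < n)
    (h : x ^ n < (2.7182818283 : ℝ) ^ m) : Real.log x < (m : ℝ) / n := by
  have h1 : (2.7182818283 : ℝ) ^ m ≤ Real.exp m := by
    have : Real.exp (m : ℝ) = Real.exp 1 ^ m := by
      rw [← Real.exp_nat_mul, mul_one]
    rw [this]
    exact pow_le_pow_left₀ (by norm_num) Real.exp_one_gt_d9.le m
  have h2 : (n : ℝ) * Real.log x < m := by
    rw [← Real.log_pow]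
    exact (Real.log_lt_iff_lt_exp (by positivity)).2 (h.trans_le h1)
  rw [lt_div_iff₀ (by exact_mod_cast hn)]
  linarith

theorem lt_log_of_pow (x : ℝ) (hx : 0 < x) (m n : ℕ) (hn : 0 < n)
    (h : (2.7182818286 : ℝ) ^ m < x ^ n) : (m : ℝ) / n < Real.log x := by
  have h1 : Real.exp m ≤ (2.7182818286 : ℝ) ^ m := by
    have : Real.exp (m : ℝ) = Real.exp 1 ^ m := by
      rw [← Real.exp_nat_mul, mul_one]
    rw [this]
    exact pow_le_pow_left₀ (Real.exp_pos 1).le Real.exp_one_lt_d9.le m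
  have h2 : (m : ℝ) < (n : ℝ) * Real.log x := by
    rw [← Real.log_pow]
    exact (Real.lt_log_iff_exp_lt (by positivity)).2 (h1.trans_lt h)
  rw [div_lt_iff₀ (by exact_mod_cast hn)]
  linarith

theorem NU_aux : 21 / 20 * (∫ x in (1 / 8 : ℝ)..(2 / 5),
      (1 - x / (2 / 5)) / (x * (12 / 25 - x))) < Real.log (71 / 25) / (12 / 25) := by
  rw [NU_int (1 / 8) (2 / 5) (12 / 25) (2 / 5) (by norm_num) (by norm_num) (by norm_num)
    (by norm_num)]
  have l1 := log_lt_of_pow (16 / 5) (by norm_num) 7 6 (by norm_num) (by norm_num)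
  have l2 := lt_log_of_pow (71 / 16) (by norm_num) 4 3 (by norm_num) (by norm_num)
  have l3 := lt_log_of_pow (71 / 25) (by norm_num) 1 1 (by norm_num) (by norm_num)
  rw [show (2 / 5 : ℝ) / (1 / 8) = 16 / 5 by norm_num,
    show ((12 / 25 : ℝ) - 1 / 8) / (12 / 25 - 2 / 5) = 71 / 16 by norm_num]
  push_cast at l1 l2 l3
  rw [lt_div_iff₀ (by norm_num)]
  linarith

theorem NU : St_NU := NU_aux

end Pool.Agent.W482.RV
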